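import Pool.Graph.R_pool_sql_team_seeded_63374d34.N945.NP.Up2

set_option autoImplicit false

/-!
# Sets without near progressions: the upper bound for arbitrary widths

`P j w` says that the width `w` is admissible for the difference `2 ^ j`.
-/

namespace Pool.Agent.H669.NP

open Pool.Agent.Y869.NP Pool.Agent.N945.NP

/-- no near progression with `k` blocks, difference `2 ^ j` and admissible width -/
def AvP (P : ℕ → ℕ → Prop) (k : ℕ) (A : Finset ℕ) : Prop :=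
  ∀ j w : ℕ, P j w → ¬ ∃ b : ℕ, ∀ i ∈ Finset.Icc 1 k,
    ∃ a ∈ A, b + i * 2 ^ j ≤ a ∧ a ≤ b + i * 2 ^ j + w

theorem blockP {P : ℕ → ℕ → Prop} {k M R j ℓ Q s₀ W : ℕ} {A : Finset ℕ} (hU : HM k M R)
    (hA : AvP P k A) (hP : ∀ i : ℕ, 2 ^ i < M → P (i + j) W) (hℓ : 0 < ℓ) (hℓw : ℓ ≤ W + 1)
    (hQ : 2 ^ j ≤ Q * ℓ) (hs : M * 2 ^ j ≤ s₀) (B : ℝ)
    (hB : ∀ s : ℕ, M * 2 ^ j ≤ s → (cnt A s ℓ : ℝ) ≤ B) :
    (cnt A s₀ (M * 2 ^ j) : ℝ) ≤ Q * (R * B) := by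
  classical
  have hB0 : 0 ≤ B := le_trans (Nat.cast_nonneg _) (hB s₀ hs)
  obtain ⟨D, hD⟩ : ∃ D : ℕ, D = 2 ^ j := ⟨_, rfl⟩
  have hDpos : 0 < D := by rw [hD]; positivity
  let Cc : ℕ → ℕ → Finset ℕ := fun e h =>
    A.filter (fun a => s₀ + h * D + e * ℓ ≤ a ∧ a < s₀ + h * D + e * ℓ + ℓ)
  let Hh : ℕ → Finset ℕ := fun e => (Finset.range M).filter (fun h => (Cc e h).Nonempty)
  have hHcard : ∀ e, (Hh e).card ≤ R := by
    intro e
    apply hU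
    · exact Finset.filter_subset _ _
    · intro x i hi hall
      have hD2 : 2 ^ (i + j) ≤ s₀ := by
        calc 2 ^ (i + j) = 2 ^ i * 2 ^ j := by rw [pow_add]
          _ ≤ M * 2 ^ j := Nat.mul_le_mul_right _ hi.le
          _ ≤ s₀ := hs
      refine hA (i + j) W (hP i hi) ⟨s₀ + x * D + e * ℓ - 2 ^ (i + j), fun i' hi' => ?_⟩
      rw [Finset.mem_Icc] at hi'
      obtain ⟨l, rfl⟩ : ∃ l : ℕ, i' = l + 1 := ⟨i' - 1, by omega⟩
      have hl := hall l (by omega)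
      rw [Finset.mem_filter] at hl
      obtain ⟨a, ha⟩ := hl.2
      rw [Finset.mem_filter] at ha
      obtain ⟨haA, h1, h2⟩ := ha
      have h3 : (x + l * 2 ^ i) * D = x * D + l * 2 ^ (i + j) := by
        rw [hD, pow_add]; ring
      have h4 : (l + 1) * 2 ^ (i + j) = l * 2 ^ (i + j) + 2 ^ (i + j) := by ring
      rw [h3] at h1 h2
      rw [h4]
      exact ⟨a, haA, by omega, by omega⟩
  have hsub : A.filter (fun a => s₀ ≤ a ∧ a < s₀ + M * 2 ^ j) ⊆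
      (Finset.range Q).biUnion (fun e => (Hh e).biUnion (fun h => Cc e h)) := by
    intro a ha
    rw [Finset.mem_filter] at ha
    obtain ⟨haA, h1, h2⟩ := ha
    rw [← hD] at h2 hQ
    obtain ⟨x, rfl⟩ := Nat.exists_eq_add_of_le h1
    have hx : x < M * D := by omega
    have hd1 := Nat.div_add_mod x D
    have hd2 := Nat.mod_lt x hDpos
    obtain ⟨h, hh⟩ : ∃ h : ℕ, h = x / D := ⟨_, rfl⟩
    obtain ⟨r, hr⟩ : ∃ r : ℕ, r = x % D := ⟨_, rfl⟩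
    have hhM : h < M := by
      rw [hh]
      exact Nat.div_lt_of_lt_mul (by rw [Nat.mul_comm]; exact hx)
    rw [← hh, ← hr] at hd1
    rw [← hr] at hd2
    have he1 := Nat.div_add_mod r ℓ
    have he2 := Nat.mod_lt r hℓ
    obtain ⟨e, he⟩ : ∃ e : ℕ, e = r / ℓ := ⟨_, rfl⟩
    have heQ : e < Q := by
      rw [he]
      exact Nat.div_lt_of_lt_mul (by rw [Nat.mul_comm]; omega)
    rw [← he] at he1
    have hc1 : D * h = h * D := Nat.mul_comm _ _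
    have hc2 : ℓ * e = e * ℓ := Nat.mul_comm _ _
    have hmem : s₀ + x ∈ Cc e h := by
      rw [Finset.mem_filter]
      refine ⟨haA, ?_, ?_⟩ <;> omega
    rw [Finset.mem_biUnion]
    refine ⟨e, Finset.mem_range.2 heQ, ?_⟩
    rw [Finset.mem_biUnion]
    refine ⟨h, ?_, hmem⟩
    rw [Finset.mem_filter]
    exact ⟨Finset.mem_range.2 hhM, ⟨_, hmem⟩⟩
  have hcell : ∀ e h, ((Cc e h).card : ℝ) ≤ B := by
    intro e h
    have := hB (s₀ + h * D + e * ℓ) (by omega)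
    exact this
  unfold cnt
  calc ((A.filter (fun a => s₀ ≤ a ∧ a < s₀ + M * 2 ^ j)).card : ℝ)
      ≤ (((Finset.range Q).biUnion (fun e => (Hh e).biUnion (fun h => Cc e h))).card : ℝ) := by
        exact_mod_cast Finset.card_le_card hsub
    _ ≤ ((∑ e ∈ Finset.range Q, ((Hh e).biUnion (fun h => Cc e h)).card : ℕ) : ℝ) := by
        exact_mod_cast Finset.card_biUnion_le
    _ = ∑ e ∈ Finset.range Q, (((Hh e).biUnion (fun h => Cc e h)).card : ℝ) := by push_cast; rfl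
    _ ≤ ∑ e ∈ Finset.range Q, (R * B) := by
        apply Finset.sum_le_sum
        intro e _
        calc (((Hh e).biUnion (fun h => Cc e h)).card : ℝ)
            ≤ ((∑ h ∈ Hh e, (Cc e h).card : ℕ) : ℝ) := by exact_mod_cast Finset.card_biUnion_le
          _ = ∑ h ∈ Hh e, ((Cc e h).card : ℝ) := by push_cast; rfl
          _ ≤ ∑ h ∈ Hh e, B := Finset.sum_le_sum (fun h _ => hcell e h)
          _ = (Hh e).card * B := by rw [Finset.sum_const, nsmul_eq_mul]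
          _ ≤ R * B := by
              apply mul_le_mul_of_nonneg_right _ hB0
              exact_mod_cast hHcard e
    _ = Q * (R * B) := by rw [Finset.sum_const, Finset.card_range, nsmul_eq_mul]

/-- All levels: the potential `κ` increases by at most `δ` at each step. -/
theorem recurP {P : ℕ → ℕ → Prop} {k μ R m₀ : ℕ} {η δ κ₁ τ : ℝ} {κ : ℕ → ℝ} {A : Finset ℕ}
    (hU : HM k (2 ^ μ) R) (hA : AvP P k A) (hδ : 0 < δ) (hη : 0 ≤ η)
    (hτ : (R : ℝ) / 2 ^ μ * (1 + η) ≤ τ) (hτ0 : 0 < τ) (hτ1 : τ ≤ 1)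
    (hstep : ∀ j ≤ m₀, κ₁ ≤ κ j ∨
      ∃ p j' : ℕ, j' + μ = p ∧ j' < j ∧ (∀ i : ℕ, i < μ → P (i + j) (2 ^ p - 1)) ∧
        (2 : ℝ) ^ p ≤ η * 2 ^ j ∧ κ j' ≤ κ j + δ) :
    ∀ j ≤ m₀, ∀ s : ℕ, 2 ^ μ * 2 ^ j ≤ s →
      (cnt A s (2 ^ μ * 2 ^ j) : ℝ) ≤ 2 ^ μ * 2 ^ j * τ ^ ((κ₁ - κ j) / δ) := by
  intro j
  have hμ0 : (0 : ℝ) < 2 ^ μ := by positivity
  induction j using Nat.strong_induction_on with
  | _ j ih =>
    intro hj s hs
    rcases hstep j hj with hb | ⟨p, j', hp, hj'j, hPi, hη2, hκ⟩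
    · have h1 : (cnt A s (2 ^ μ * 2 ^ j) : ℝ) ≤ 2 ^ μ * 2 ^ j := by
        exact_mod_cast cnt_le A s (2 ^ μ * 2 ^ j)
      have h2 : (κ₁ - κ j) / δ ≤ 0 := div_nonpos_of_nonpos_of_nonneg (by linarith) hδ.le
      have h3 : 1 ≤ τ ^ ((κ₁ - κ j) / δ) := Real.one_le_rpow_of_pos_of_le_one_of_nonpos hτ0 hτ1 h2
      have h4 : (0 : ℝ) < 2 ^ μ * 2 ^ j := by positivity
      nlinarith
    · obtain ⟨ℓ, hℓ⟩ : ∃ ℓ : ℕ, ℓ = 2 ^ p := ⟨_, rfl⟩
      have hℓ2 : ℓ = 2 ^ μ * 2 ^ j' := by rw [hℓ, ← hp, pow_add, Nat.mul_comm]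
      have hℓpos : 0 < ℓ := by rw [hℓ]; positivity
      have hj'le : 2 ^ μ * 2 ^ j' ≤ 2 ^ μ * 2 ^ j :=
        Nat.mul_le_mul_left _ (Nat.pow_le_pow_right (by norm_num) hj'j.le)
      obtain ⟨T, hT⟩ : ∃ T : ℝ, T = τ ^ ((κ₁ - κ j') / δ) := ⟨_, rfl⟩
      have hT0 : 0 ≤ T := by rw [hT]; exact Real.rpow_nonneg hτ0.le _
      have hB : ∀ s' : ℕ, 2 ^ μ * 2 ^ j ≤ s' → (cnt A s' ℓ : ℝ) ≤ ℓ * T := by
        intro s' hs'
        have h5 := ih j' hj'j (by omega) s' (by omega)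
        rw [hT, hℓ2]
        push_cast
        exact h5
      obtain ⟨Q, hQ⟩ : ∃ Q : ℕ, Q = 2 ^ j / ℓ + 1 := ⟨_, rfl⟩
      have hd1 := Nat.div_add_mod (2 ^ j) ℓ
      have hd2 := Nat.mod_lt (2 ^ j) hℓpos
      have hQℓ : Q * ℓ = ℓ * (2 ^ j / ℓ) + ℓ := by rw [hQ]; ring
      have hQ1 : 2 ^ j ≤ Q * ℓ := by omega
      have hQ2 : Q * ℓ ≤ 2 ^ j + ℓ := by omega
      have hblock := blockP (W := 2 ^ p - 1) hU hA
        (fun i hi => hPi i ((Nat.pow_lt_pow_iff_right (by norm_num)).1 hi)) hℓpos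
        (by rw [hℓ]; omega) hQ1 hs (ℓ * T) hB
      have hQ2R : (Q : ℝ) * ℓ ≤ 2 ^ j * (1 + η) := by
        have h6 : (Q : ℝ) * ℓ ≤ 2 ^ j + ℓ := by exact_mod_cast hQ2
        have h7 : (ℓ : ℝ) = 2 ^ p := by rw [hℓ]; push_cast; rfl
        have h8 : (Q : ℝ) * ℓ ≤ 2 ^ j + 2 ^ p := by rw [← h7]; exact h6
        linarith
      have h9 : τ * T ≤ τ ^ ((κ₁ - κ j) / δ) := by
        have h10 : (κ₁ - κ j) / δ ≤ (κ₁ - κ j') / δ + 1 := by
          rw [div_add_one hδ.ne']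
          apply div_le_div_of_nonneg_right _ hδ.le
          linarith
        calc τ * T = τ ^ ((κ₁ - κ j') / δ + 1) := by
              rw [hT, Real.rpow_add hτ0, Real.rpow_one, mul_comm]
          _ ≤ _ := Real.rpow_le_rpow_of_exponent_ge hτ0 hτ1 h10
      have hR0 : (0 : ℝ) ≤ R := Nat.cast_nonneg _
      calc (cnt A s (2 ^ μ * 2 ^ j) : ℝ) ≤ Q * (R * (ℓ * T)) := hblock
        _ = (Q * ℓ) * (R * T) := by ring
        _ ≤ (2 ^ j * (1 + η)) * (R * T) :=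
            mul_le_mul_of_nonneg_right hQ2R (mul_nonneg hR0 hT0)
        _ = 2 ^ μ * 2 ^ j * (((R : ℝ) / 2 ^ μ * (1 + η)) * T) := by field_simp
        _ ≤ 2 ^ μ * 2 ^ j * (τ * T) := by
            apply mul_le_mul_of_nonneg_left _ (by positivity)
            exact mul_le_mul_of_nonneg_right hτ hT0
        _ ≤ 2 ^ μ * 2 ^ j * τ ^ ((κ₁ - κ j) / δ) :=
            mul_le_mul_of_nonneg_left h9 (by positivity)

/-- From windows to the whole set. -/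
theorem wholeP {μ j n : ℕ} {A : Finset ℕ} {T : ℝ} (hT : 0 ≤ T) (hAn : A ⊆ Finset.Icc 1 n)
    (h : ∀ s : ℕ, 2 ^ μ * 2 ^ j ≤ s → (cnt A s (2 ^ μ * 2 ^ j) : ℝ) ≤ 2 ^ μ * 2 ^ j * T) :
    (A.card : ℝ) ≤ 2 ^ μ * 2 ^ j + (n + 2 ^ μ * 2 ^ j) * T := by
  classical
  obtain ⟨ℓ, hℓ⟩ : ∃ ℓ : ℕ, ℓ = 2 ^ μ * 2 ^ j := ⟨_, rfl⟩
  have hℓpos : 0 < ℓ := by rw [hℓ]; positivity
  have hℓR : (ℓ : ℝ) = 2 ^ μ * 2 ^ j := by rw [hℓ]; push_cast; rfl
  rw [← hℓR]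
  rw [← hℓR, ← hℓ] at h
  have hsub : A ⊆ Finset.range ℓ ∪ (Finset.range (n / ℓ + 1)).biUnion
      (fun e => A.filter (fun a => ℓ + e * ℓ ≤ a ∧ a < ℓ + e * ℓ + ℓ)) := by
    intro a ha
    have h1 := Finset.mem_Icc.1 (hAn ha)
    rw [Finset.mem_union]
    rcases lt_or_ge a ℓ with h2 | h2
    · exact Or.inl (Finset.mem_range.2 h2)
    · right
      rw [Finset.mem_biUnion]
      refine ⟨(a - ℓ) / ℓ, ?_, ?_⟩
      · rw [Finset.mem_range]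
        have : (a - ℓ) / ℓ ≤ n / ℓ := Nat.div_le_div_right (by omega)
        omega
      · rw [Finset.mem_filter]
        have h3 := Nat.div_add_mod (a - ℓ) ℓ
        have h4 := Nat.mod_lt (a - ℓ) hℓpos
        have h5 : ℓ * ((a - ℓ) / ℓ) = (a - ℓ) / ℓ * ℓ := Nat.mul_comm _ _
        refine ⟨ha, ?_, ?_⟩ <;> omega
  have h1 : (((Finset.range (n / ℓ + 1)).biUnion
      (fun e => A.filter (fun a => ℓ + e * ℓ ≤ a ∧ a < ℓ + e * ℓ + ℓ))).card : ℝ) ≤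
      (n / ℓ + 1 : ℕ) * (ℓ * T) := by
    calc (((Finset.range (n / ℓ + 1)).biUnion
          (fun e => A.filter (fun a => ℓ + e * ℓ ≤ a ∧ a < ℓ + e * ℓ + ℓ))).card : ℝ)
        ≤ ((∑ e ∈ Finset.range (n / ℓ + 1),
          (A.filter (fun a => ℓ + e * ℓ ≤ a ∧ a < ℓ + e * ℓ + ℓ)).card : ℕ) : ℝ) := by
          exact_mod_cast Finset.card_biUnion_le
      _ = ∑ e ∈ Finset.range (n / ℓ + 1), (cnt A (ℓ + e * ℓ) ℓ : ℝ) := by push_cast; rfl
      _ ≤ ∑ e ∈ Finset.range (n / ℓ + 1), (ℓ * T) :=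
          Finset.sum_le_sum fun e _ => h (ℓ + e * ℓ) (by omega)
      _ = _ := by rw [Finset.sum_const, Finset.card_range, nsmul_eq_mul]
  have h2 : ((n / ℓ + 1 : ℕ) : ℝ) * ℓ ≤ n + ℓ := by
    have h3 : (n / ℓ + 1) * ℓ ≤ n + ℓ := by
      have := Nat.div_mul_le_self n ℓ
      rw [Nat.add_mul, Nat.one_mul]
      omega
    exact_mod_cast h3
  calc (A.card : ℝ) ≤ ((Finset.range ℓ ∪ (Finset.range (n / ℓ + 1)).biUnion
        (fun e => A.filter (fun a => ℓ + e * ℓ ≤ a ∧ a < ℓ + e * ℓ + ℓ))).card : ℝ) := by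
        exact_mod_cast Finset.card_le_card hsub
    _ ≤ (((Finset.range ℓ).card + ((Finset.range (n / ℓ + 1)).biUnion
        (fun e => A.filter (fun a => ℓ + e * ℓ ≤ a ∧ a < ℓ + e * ℓ + ℓ))).card : ℕ) : ℝ) := by
        exact_mod_cast Finset.card_union_le _ _
    _ ≤ ℓ + (n / ℓ + 1 : ℕ) * (ℓ * T) := by
        rw [Finset.card_range]
        push_cast
        push_cast at h1
        linarith
    _ = ℓ + ((n / ℓ + 1 : ℕ) * ℓ) * T := by ring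
    _ ≤ ℓ + (n + ℓ) * T := by
        have := mul_le_mul_of_nonneg_right h2 hT
        linarith

end Pool.Agent.H669.NP
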