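import Pool.Agent.H669.NP.Cns
import Pool.Agent.H669.NP.Upp

set_option autoImplicit false

/-!
# Sets without near progressions: arbitrary width functions

`Φ` is the width function in the logarithmic scale (`w < n exp (-Φ (log (n / d)))`) and `K` is an
approximate Abel function of it.
-/

namespace Pool.Agent.H669.NP

open Filter Topology

/-- `K` is an approximate Abel function of `Φ` on `[L₀, ∞)`. -/
structure Abel (Φ K : ℝ → ℝ) (L₀ : ℝ) : Prop where
  nonneg : 0 ≤ L₀
  mono : MonotoneOn Φ (Set.Ici L₀)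
  ge : ∀ L, L₀ ≤ L → L ≤ Φ L
  kmono : MonotoneOn K (Set.Ici L₀)
  k1 : Tendsto (fun L => K (L + 1) - K L) atTop (𝓝 0)
  k2 : Tendsto (fun L => K (Φ L) - K L) atTop (𝓝 1)

variable {Φ K : ℝ → ℝ} {L₀ : ℝ}

theorem Abel.shift (h : Abel Φ K L₀) {c ε : ℝ} (hε : 0 < ε) :
    ∃ X, L₀ ≤ X ∧ ∀ L, X ≤ L → ∀ c', 0 ≤ c' → c' ≤ c → K (L + c') ≤ K L + ε := by
  obtain ⟨m, hm⟩ : ∃ m : ℕ, c ≤ m := exists_nat_ge c
  have h1 : ∀ m : ℕ, Tendsto (fun L => K (L + m) - K L) atTop (𝓝 0) := by
    intro m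
    induction m with
    | zero => simp
    | succ m ih =>
      have h2 : Tendsto (fun L : ℝ => K (L + m + 1) - K (L + m)) atTop (𝓝 0) :=
        h.k1.comp (tendsto_atTop_add_const_right atTop (m : ℝ) tendsto_id)
      have h3 := h2.add ih
      rw [add_zero] at h3
      refine h3.congr fun L => ?_
      push_cast
      rw [← add_assoc]
      ring
  obtain ⟨X, hX⟩ := eventually_atTop.1 ((h1 m).eventually (gt_mem_nhds hε))
  refine ⟨max X L₀, le_max_right _ _, fun L hL c' hc0 hc' => ?_⟩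
  have h2 := hX L (le_trans (le_max_left _ _) hL)
  have h3 : K (L + c') ≤ K (L + m) := by
    apply h.kmono
    · exact le_trans (le_max_right _ _) (by linarith : max X L₀ ≤ L + c')
    · have : (0 : ℝ) ≤ m := Nat.cast_nonneg _
      exact le_trans (le_max_right _ _) (by linarith : max X L₀ ≤ L + m)
    · linarith
  linarith

theorem Abel.gap (h : Abel Φ K L₀) (c : ℝ) : ∃ X, L₀ ≤ X ∧ ∀ L, X ≤ L → L + c ≤ Φ L := by
  obtain ⟨X, hX0, hX⟩ := h.shift (c := max c 0) (by norm_num : (0 : ℝ) < 1 / 4)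
  obtain ⟨Y, hY⟩ := eventually_atTop.1 (h.k2.eventually (lt_mem_nhds (by norm_num : (1 / 2 : ℝ) < 1)))
  refine ⟨max X Y, le_trans hX0 (le_max_left _ _), fun L hL => ?_⟩
  have hLX := le_trans (le_max_left _ _) hL
  have h1 := hX L hLX (max c 0) (le_max_right _ _) le_rfl
  have h2 := hY L (le_trans (le_max_right _ _) hL)
  by_contra hcon
  push Not at hcon
  have h3 : K (Φ L) ≤ K (L + max c 0) := by
    apply h.kmono
    · exact le_trans (le_trans hX0 hLX) (h.ge L (le_trans hX0 hLX))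
    · have : 0 ≤ max c 0 := le_max_right _ _
      exact le_trans (le_trans hX0 hLX) (by linarith)
    · have : c ≤ max c 0 := le_max_left _ _
      linarith
  linarith

theorem Abel.top (h : Abel Φ K L₀) : Tendsto K atTop atTop := by
  obtain ⟨Y, hY⟩ := eventually_atTop.1 (h.k2.eventually (lt_mem_nhds (by norm_num : (1 / 2 : ℝ) < 1)))
  obtain ⟨X, hX⟩ : ∃ X, X = max Y L₀ := ⟨_, rfl⟩
  have h1 : ∀ m : ℕ, ∃ L, X ≤ L ∧ K X + m / 2 ≤ K L := by
    intro m
    induction m with
    | zero => exact ⟨X, le_rfl, by simp⟩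
    | succ m ih =>
      obtain ⟨L, hL, hK⟩ := ih
      have h2 := hY L (le_trans (by rw [hX]; exact le_max_left _ _) hL)
      refine ⟨Φ L, le_trans hL (h.ge L (le_trans (by rw [hX]; exact le_max_right _ _) hL)), ?_⟩
      push_cast
      linarith
  rw [tendsto_atTop_atTop]
  intro b
  obtain ⟨m, hm⟩ := exists_nat_ge (2 * (b - K X))
  obtain ⟨L, hL, hK⟩ := h1 m
  refine ⟨L, fun y hy => ?_⟩
  have h3 : K L ≤ K y := h.kmono (le_trans (by rw [hX]; exact le_max_right _ _) hL)
    (le_trans (le_trans (by rw [hX]; exact le_max_right _ _) hL) hy) hy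
  linarith

theorem Abel.small (h : Abel Φ K L₀) {ε : ℝ} (hε : 0 < ε) :
    ∃ C, 0 ≤ C ∧ ∀ x, L₀ ≤ x → K x ≤ ε * x + C := by
  obtain ⟨Y, hY⟩ := eventually_atTop.1 (h.k1.eventually (gt_mem_nhds hε))
  obtain ⟨X, hX⟩ : ∃ X, X = max Y L₀ := ⟨_, rfl⟩
  have hXY : Y ≤ X := by rw [hX]; exact le_max_left _ _
  have hXL : L₀ ≤ X := by rw [hX]; exact le_max_right _ _
  have hX0 : 0 ≤ X := le_trans h.nonneg hXL
  have h1 : ∀ m : ℕ, K (X + m) ≤ K X + m * ε := by
    intro m
    induction m with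
    | zero => simp
    | succ m ih =>
      have hm : (0 : ℝ) ≤ m := Nat.cast_nonneg _
      have h2 := hY (X + m) (by linarith)
      push_cast
      rw [← add_assoc]
      linarith
  refine ⟨|K X| + ε, by positivity, fun x hx => ?_⟩
  have hx0 : 0 ≤ x := le_trans h.nonneg hx
  rcases le_total x X with hxX | hxX
  · have h2 : K x ≤ K X := h.kmono hx hXL hxX
    have h3 := le_abs_self (K X)
    have h4 : 0 ≤ ε * x := by positivity
    linarith
  · have h2 : K x ≤ K (X + ⌈x - X⌉₊) := by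
      apply h.kmono hx
      · have : (0 : ℝ) ≤ (⌈x - X⌉₊ : ℝ) := Nat.cast_nonneg _
        exact le_trans hXL (by linarith)
      · linarith [Nat.le_ceil (x - X)]
    have h3 := h1 ⌈x - X⌉₊
    have h4 : (⌈x - X⌉₊ : ℝ) < x - X + 1 := Nat.ceil_lt_add_one (by linarith)
    have h5 := le_abs_self (K X)
    have h6 : (⌈x - X⌉₊ : ℝ) * ε ≤ (x + 1) * ε :=
      mul_le_mul_of_nonneg_right (by linarith) hε.le
    linarith

/-- the depth of the difference `2 ^ j` -/
noncomputable def dep (n j : ℕ) : ℝ := Real.log n - j * Real.log 2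

theorem exp_dep {n j : ℕ} (hn : 0 < n) : Real.exp (-dep n j) * n = 2 ^ j := by
  have hnR : (0 : ℝ) < n := by exact_mod_cast hn
  unfold dep
  rw [neg_sub, Real.exp_sub, Real.exp_log hnR, mul_comm (j : ℝ), Real.exp_mul,
    Real.exp_log (by norm_num), Real.rpow_natCast]
  field_simp

theorem dep_eq {n j : ℕ} (hn : 0 < n) : Real.log ((n : ℝ) / 2 ^ j) = dep n j := by
  have hnR : (0 : ℝ) < n := by exact_mod_cast hn
  unfold dep
  rw [Real.log_div hnR.ne' (by positivity), Real.log_pow]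

theorem dep_nonneg {n j : ℕ} (hn : 0 < n) (h : 0 ≤ dep n j) : 2 ^ j ≤ n := by
  have h1 := exp_dep (j := j) hn
  have h2 : Real.exp (-dep n j) ≤ 1 := by
    rw [Real.exp_le_one_iff]
    linarith
  have hnR : (0 : ℝ) < n := by exact_mod_cast hn
  have h3 : ((2 : ℝ) ^ j) ≤ n := by
    rw [← h1]
    nlinarith
  exact_mod_cast h3

theorem log2_pos : 0 < Real.log 2 := Real.log_pos (by norm_num)

/-- The lower bound. -/
theorem lowerP (h : Abel Φ K L₀) {k r : ℕ} {ρ ε : ℝ} (hk : 0 < k) (hρ0 : 0 < ρ) (hρ1 : ρ ≤ 1)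
    (hr1 : 1 ≤ r) (hε : 0 < ε) (hε1 : 2 * ε < 1)
    (hex : ∀ M : ℕ, ∃ Y : Finset ℕ, Y ⊆ Finset.range M ∧ Pool.Agent.Y869.NP.Gen.PFree k Y ∧
      ρ * M ≤ Y.card) :
    ∃ c : ℝ, 0 < c ∧ ∀ᶠ n : ℕ in atTop, ∃ A : Finset ℕ, A ⊆ Finset.Icc 1 n ∧
      (∀ j w : ℕ, (w : ℝ) < n * Real.exp (-Φ (dep n j)) → ¬ ∃ b : ℕ, ∀ i ∈ Finset.Icc 1 k,
        ∃ a ∈ A, b + i * 2 ^ j ≤ a ∧ a ≤ b + i * 2 ^ j + w) ∧
      c * n * (ρ * (1 - 1 / 2 ^ r) ^ 2) ^ (K (Real.log n) / (1 - 2 * ε)) ≤ A.card := by
  have l2 := log2_pos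
  obtain ⟨X₁, hX₁0, hX₁⟩ := h.shift (c := (r + 1) * Real.log 2) hε
  obtain ⟨X₂, hX₂0, hX₂⟩ := h.gap ((2 * r + 3) * Real.log 2)
  obtain ⟨X₃, hX₃⟩ := eventually_atTop.1 (h.k2.eventually
    (lt_mem_nhds (by linarith : 1 - ε < 1)))
  obtain ⟨X, hXd⟩ : ∃ X, X = max X₁ (max X₂ X₃) := ⟨_, rfl⟩
  have hXX₁ : X₁ ≤ X := by rw [hXd]; exact le_max_left _ _
  have hXX₂ : X₂ ≤ X := by rw [hXd]; exact le_trans (le_max_left _ _) (le_max_right _ _)
  have hXX₃ : X₃ ≤ X := by rw [hXd]; exact le_trans (le_max_right _ _) (le_max_right _ _)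
  have hXL : L₀ ≤ X := le_trans hX₁0 hXX₁
  have hX0 : 0 ≤ X := le_trans h.nonneg hXL
  obtain ⟨σ, hσ⟩ : ∃ σ : ℝ, σ = ρ * (1 - 1 / 2 ^ r) ^ 2 := ⟨_, rfl⟩
  have hx1 : (1 : ℝ) / 2 ^ r ≤ 1 / 2 := by
    apply one_div_le_one_div_of_le (by norm_num)
    calc (2 : ℝ) = 2 ^ 1 := by norm_num
      _ ≤ 2 ^ r := pow_le_pow_right₀ (by norm_num) hr1
  have hx0 : (0 : ℝ) < 1 / 2 ^ r := by positivity
  have hσ0 : 0 < σ := by
    rw [hσ]
    have : (0 : ℝ) < 1 - 1 / 2 ^ r := by linarith
    positivity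
  have hσ1 : σ ≤ 1 := by
    rw [hσ]
    have h1 : (1 - (1 : ℝ) / 2 ^ r) ^ 2 ≤ 1 := by nlinarith
    nlinarith [sq_nonneg (1 - (1 : ℝ) / 2 ^ r)]
  obtain ⟨δ, hδd⟩ : ∃ δ : ℝ, δ = 1 - 2 * ε := ⟨_, rfl⟩
  have hδ : 0 < δ := by linarith
  refine ⟨ρ * σ ^ (-K X / δ) * Real.exp (-X) / 4, by positivity, ?_⟩
  rw [← hσ, ← hδd]
  have hlog : Tendsto (fun n : ℕ => Real.log (n : ℝ)) atTop atTop :=
    Real.tendsto_log_atTop.comp tendsto_natCast_atTop_atTop
  filter_upwards [hlog.eventually_ge_atTop (X + Real.log 2), eventually_ge_atTop 1] with n hn hn1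
  have hn0 : 0 < n := hn1
  have hnR : (0 : ℝ) < n := by exact_mod_cast hn0
  obtain ⟨m₀, hm₀⟩ : ∃ m₀ : ℕ, m₀ = ⌊(Real.log n - X) / Real.log 2⌋₊ := ⟨_, rfl⟩
  have hq0 : 0 ≤ (Real.log n - X) / Real.log 2 := div_nonneg (by linarith) l2.le
  have hm₀1 : (m₀ : ℝ) * Real.log 2 ≤ Real.log n - X := by
    rw [← le_div_iff₀ l2, hm₀]
    exact Nat.floor_le hq0
  have hm₀2 : Real.log n - X < (m₀ + 1) * Real.log 2 := by
    rw [← div_lt_iff₀ l2, hm₀]
    exact Nat.lt_floor_add_one _
  have hm₀pos : 1 ≤ m₀ := by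
    rw [hm₀]
    apply Nat.le_floor
    rw [Nat.cast_one, le_div_iff₀ l2]
    linarith
  have hdep : ∀ j ≤ m₀, X ≤ dep n j := by
    intro j hj
    have h1 : (j : ℝ) * Real.log 2 ≤ m₀ * Real.log 2 :=
      mul_le_mul_of_nonneg_right (by exact_mod_cast hj) l2.le
    unfold dep
    linarith
  have hchain := chainP (P := fun j w => (w : ℝ) < n * Real.exp (-Φ (dep n j))) (k := k) (r := r)
    (m₀ := m₀) (ρ := ρ) (δ := δ) (κ₁ := K (Real.log n)) (κ := fun j => K (dep n j)) hk hρ0 hρ1 hδ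
    hr1 hex ?_ ?_ ?_ m₀ le_rfl
  · rw [← hσ] at hchain
    have h2m : 2 ^ m₀ = 2 * 2 ^ (m₀ - 1) := by rw [← pow_succ']; congr 1; omega
    obtain ⟨A, hA1, hA2, hA3⟩ := hchain (2 ^ (m₀ - 1)) (by omega)
    have hm₀n : 2 ^ m₀ ≤ n := dep_nonneg hn0 (le_trans hX0 (hdep m₀ le_rfl))
    have hm₀nZ : ((2 ^ (m₀ - 1) : ℕ) : ℤ) ≤ n := by
      have : 2 ^ (m₀ - 1) ≤ n := by omega
      exact_mod_cast this
    refine ⟨A.image (fun a => (a + 1).toNat), ?_, ?_, ?_⟩
    · intro x hx
      rw [Finset.mem_image] at hx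
      obtain ⟨a, ha, rfl⟩ := hx
      obtain ⟨h1, h2⟩ := hA1 a ha
      rw [Finset.mem_Icc]
      constructor
      · omega
      · rw [Int.toNat_le]
        linarith
    · rintro j w hw ⟨b, hb⟩
      have hZ : ∀ i ∈ Finset.Icc 1 k, ∃ a ∈ A, (b : ℤ) + i * 2 ^ j ≤ a + 1 ∧
          a + 1 ≤ (b : ℤ) + i * 2 ^ j + w := by
        intro i hi
        obtain ⟨x, hx, h1, h2⟩ := hb i hi
        rw [Finset.mem_image] at hx
        obtain ⟨a, ha, rfl⟩ := hx
        obtain ⟨h3, h4⟩ := hA1 a ha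
        refine ⟨a, ha, ?_, ?_⟩
        · have : ((b + i * 2 ^ j : ℕ) : ℤ) ≤ ((a + 1).toNat : ℤ) := by exact_mod_cast h1
          rw [Int.toNat_of_nonneg (by omega)] at this
          push_cast at this
          exact this
        · have : ((a + 1).toNat : ℤ) ≤ ((b + i * 2 ^ j + w : ℕ) : ℤ) := by exact_mod_cast h2
          rw [Int.toNat_of_nonneg (by omega)] at this
          push_cast at this
          exact this
      rcases lt_or_ge j m₀ with hjm | hjm
      · refine hA2 j hjm w hw ⟨b + 2 ^ j - 1, fun i hi => ?_⟩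
        obtain ⟨a, ha, h1, h2⟩ := hZ (i + 1) (by rw [Finset.mem_Icc]; omega)
        push_cast at h1 h2
        exact ⟨a, ha, by linarith, by linarith⟩
      · obtain ⟨a₀, ha₀, h1, -⟩ := hZ 1 (by rw [Finset.mem_Icc]; omega)
        have b0 := hA1 a₀ ha₀
        push_cast at h1 b0
        have h5 : (2 : ℤ) ^ m₀ ≤ 2 ^ j := pow_le_pow_right₀ (by norm_num) hjm
        have h6 : (2 : ℤ) ^ m₀ = 2 * 2 ^ (m₀ - 1) := by exact_mod_cast h2m
        have h7 : (0 : ℤ) ≤ b := by positivity
        have h8 : (0 : ℤ) < 2 ^ (m₀ - 1) := by positivity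
        linarith [b0.2]
    · rw [Finset.card_image_of_injOn]
      · refine le_trans ?_ hA3
        have h1 : (n : ℝ) * Real.exp (-X) ≤ 2 ^ (m₀ + 1) := by
          have h2 : Real.exp (Real.log n - X) ≤ Real.exp ((m₀ + 1 : ℕ) * Real.log 2) := by
            apply Real.exp_le_exp.2
            push_cast
            exact hm₀2.le
          rw [Real.exp_sub, Real.exp_log hnR, mul_comm ((m₀ + 1 : ℕ) : ℝ), Real.exp_mul,
            Real.exp_log (by norm_num), Real.rpow_natCast] at h2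
          rw [Real.exp_neg, ← div_eq_mul_inv]
          exact h2
        have h2 : (2 : ℝ) ^ (m₀ + 1) = 4 * 2 ^ (m₀ - 1) := by
          rw [show m₀ + 1 = (m₀ - 1) + 2 by omega, pow_add]
          ring
        have h3 : σ ^ (-K X / δ) * σ ^ (K (Real.log n) / δ) ≤
            σ ^ ((K (Real.log n) - K (dep n m₀)) / δ) := by
          rw [← Real.rpow_add hσ0, ← add_div]
          apply Real.rpow_le_rpow_of_exponent_ge hσ0 hσ1
          apply div_le_div_of_nonneg_right _ hδ.le
          have h4 : K X ≤ K (dep n m₀) := h.kmono hXL (le_trans hXL (hdep m₀ le_rfl))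
            (hdep m₀ le_rfl)
          linarith
        push_cast
        calc ρ * σ ^ (-K X / δ) * Real.exp (-X) / 4 * n * σ ^ (K (Real.log n) / δ)
            = ρ * (σ ^ (-K X / δ) * σ ^ (K (Real.log n) / δ)) * (n * Real.exp (-X) / 4) := by ring
          _ ≤ ρ * σ ^ ((K (Real.log n) - K (dep n m₀)) / δ) * (n * Real.exp (-X) / 4) := by
              apply mul_le_mul_of_nonneg_right _ (by positivity)
              exact mul_le_mul_of_nonneg_left h3 hρ0.le
          _ ≤ ρ * σ ^ ((K (Real.log n) - K (dep n m₀)) / δ) * 2 ^ (m₀ - 1) := by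
              apply mul_le_mul_of_nonneg_left _ (by positivity)
              rw [h2] at h1
              linarith
      · intro a ha b hb hab
        have h1 := (hA1 a ha).1
        have h2 := (hA1 b hb).1
        simp only at hab
        omega
  · -- widths are smaller than the difference
    intro j w hj hw
    have hd := hdep j hj.le
    have h1 : Real.exp (-Φ (dep n j)) ≤ Real.exp (-dep n j) :=
      Real.exp_le_exp.2 (neg_le_neg (h.ge _ (le_trans hXL hd)))
    have h2 := exp_dep (j := j) hn0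
    have h3 : (w : ℝ) < 2 ^ j := by
      rw [← h2]
      nlinarith
    exact_mod_cast h3
  · -- the potential is bounded
    intro m' hm'
    apply h.kmono (le_trans hXL (hdep m' hm'))
    · exact le_trans hXL (by linarith : X ≤ Real.log n)
    · unfold dep
      have : (0 : ℝ) ≤ m' * Real.log 2 := by positivity
      linarith
  · -- the steps
    intro m' hm'
    have hL' := hdep m' hm'
    obtain ⟨L', hL'd⟩ : ∃ L', L' = dep n m' := ⟨_, rfl⟩
    rw [← hL'd] at hL'
    obtain ⟨Z, hZ⟩ : ∃ Z, Z = Φ (L' + Real.log 2) := ⟨_, rfl⟩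
    have hlow : ∀ j < m', Z ≤ Φ (dep n j) := by
      intro j hj
      rw [hZ]
      have h1 : L' + Real.log 2 ≤ dep n j := by
        have h2 : ((j : ℝ) + 1) * Real.log 2 ≤ m' * Real.log 2 :=
          mul_le_mul_of_nonneg_right (by exact_mod_cast hj) l2.le
        rw [hL'd]
        unfold dep
        linarith
      apply h.mono _ _ h1
      · exact le_trans hXL (by linarith)
      · exact le_trans hXL (by linarith)
    by_cases hcase : Real.log n ≤ Z
    · left
      intro j w hj hw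
      have h1 : Real.exp (-Φ (dep n j)) ≤ Real.exp (-Real.log n) :=
        Real.exp_le_exp.2 (by linarith [hlow j hj])
      rw [Real.exp_neg (Real.log n), Real.exp_log hnR] at h1
      have h2 : (w : ℝ) < 1 := by
        calc (w : ℝ) < n * Real.exp (-Φ (dep n j)) := hw
          _ ≤ n * (n : ℝ)⁻¹ := mul_le_mul_of_nonneg_left h1 hnR.le
          _ = 1 := mul_inv_cancel₀ hnR.ne'
      have h3 : w < 1 := by exact_mod_cast h2
      omega
    · right
      push Not at hcase
      obtain ⟨q, hq⟩ : ∃ q : ℕ, q = ⌈(Real.log n - Z) / Real.log 2⌉₊ := ⟨_, rfl⟩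
      have hq1 : Real.log n - Z ≤ q * Real.log 2 := by
        rw [← div_le_iff₀ l2, hq]
        exact Nat.le_ceil _
      have hq2 : (q : ℝ) * Real.log 2 < Real.log n - Z + Real.log 2 := by
        have h1 : (q : ℝ) < (Real.log n - Z) / Real.log 2 + 1 := by
          rw [hq]
          exact Nat.ceil_lt_add_one (div_nonneg (by linarith) l2.le)
        have h2 := mul_lt_mul_of_pos_right h1 l2
        rw [add_mul, div_mul_cancel₀ _ l2.ne', one_mul] at h2
        exact h2
      have hgap := hX₂ (L' + Real.log 2) (by linarith)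
      rw [← hZ] at hgap
      have hm'r : (m' : ℝ) * Real.log 2 = Real.log n - L' := by
        rw [hL'd]
        unfold dep
        ring
      have hlt : ((q + r + r + 3 : ℕ) : ℝ) * Real.log 2 < m' * Real.log 2 := by
        push_cast
        rw [hm'r]
        nlinarith
      have hltN : q + r + r + 3 < m' := by
        have := lt_of_mul_lt_mul_right hlt l2.le
        exact_mod_cast this
      refine ⟨q + r, m' - (q + r), by omega, by omega, by omega, fun j w hj hw => ?_, ?_⟩
      · have h1 : Real.exp (-Φ (dep n j)) ≤ Real.exp (-Z) :=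
          Real.exp_le_exp.2 (by linarith [hlow j hj])
        have h2 : n * Real.exp (-Z) ≤ 2 ^ q := by
          have h3 : Real.exp (Real.log n - Z) ≤ Real.exp (q * Real.log 2) :=
            Real.exp_le_exp.2 hq1
          rw [Real.exp_sub, Real.exp_log hnR, mul_comm (q : ℝ), Real.exp_mul,
            Real.exp_log (by norm_num), Real.rpow_natCast] at h3
          rw [Real.exp_neg, ← div_eq_mul_inv]
          exact h3
        have h3 : (w : ℝ) < 2 ^ q := by
          calc (w : ℝ) < n * Real.exp (-Φ (dep n j)) := hw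
            _ ≤ n * Real.exp (-Z) := mul_le_mul_of_nonneg_left h1 hnR.le
            _ ≤ 2 ^ q := h2
        have h4 : w < 2 ^ q := by exact_mod_cast h3
        rw [Nat.add_sub_cancel]
        exact h4.le
      · have hdm : X ≤ dep n (q + r) := hdep _ (by omega)
        have h1 := hX₁ (dep n (q + r)) (by linarith) ((r + 1) * Real.log 2) (by positivity) le_rfl
        have h2 : K Z ≤ K (dep n (q + r) + (r + 1) * Real.log 2) := by
          apply h.kmono
          · have := h.ge (L' + Real.log 2) (by linarith)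
            rw [← hZ] at this
            exact le_trans (by linarith : L₀ ≤ L' + Real.log 2) this
          · have : (0 : ℝ) ≤ (r + 1) * Real.log 2 := by positivity
            exact le_trans (by linarith : L₀ ≤ dep n (q + r)) (by linarith)
          · unfold dep
            push_cast
            linarith
        have h3 := hX₃ (L' + Real.log 2) (by linarith)
        rw [← hZ] at h3
        have h4 : K L' ≤ K (L' + Real.log 2) := by
          apply h.kmono (le_trans hXL hL') _ (by linarith)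
          exact le_trans hXL (by linarith)
        rw [← hL'd, hδd]
        linarith

/-- The upper bound. -/
theorem upperP (h : Abel Φ K L₀) {k μ R : ℕ} {τ ε η : ℝ}
    (hU : Pool.Agent.N945.NP.HM k (2 ^ μ) R) (hε : 0 < ε) (hη : 0 < η)
    (hτ : (R : ℝ) / 2 ^ μ * (1 + η) ≤ τ) (hτ0 : 0 < τ) (hτ1 : τ < 1) :
    ∃ C : ℝ, 0 < C ∧ ∀ᶠ n : ℕ in atTop, ∀ A : Finset ℕ, A ⊆ Finset.Icc 1 n →
      AvP (fun j w => 2 ^ j ≤ n ∧ (w : ℝ) < n * Real.exp (-Φ (dep n j))) k A →
      (A.card : ℝ) ≤ C * n * τ ^ ((1 - ε) * K (Real.log n) / (1 + 2 * ε)) := by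
  have l2 := log2_pos
  obtain ⟨X₁, hX₁0, hX₁⟩ := h.shift (c := (μ + 1) * Real.log 2) hε
  obtain ⟨X₂, hX₂0, hX₂⟩ := h.gap (max (Real.log 2) (-Real.log η))
  obtain ⟨X₃, hX₃⟩ := eventually_atTop.1 (h.k2.eventually
    (gt_mem_nhds (by linarith : (1 : ℝ) < 1 + ε)))
  obtain ⟨X, hXd⟩ : ∃ X, X = max X₁ (max X₂ X₃) := ⟨_, rfl⟩
  have hXX₁ : X₁ ≤ X := by rw [hXd]; exact le_max_left _ _
  have hXX₂ : X₂ ≤ X := by rw [hXd]; exact le_trans (le_max_left _ _) (le_max_right _ _)
  have hXX₃ : X₃ ≤ X := by rw [hXd]; exact le_trans (le_max_right _ _) (le_max_right _ _)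
  have hXL : L₀ ≤ X := le_trans hX₁0 hXX₁
  have hX0 : 0 ≤ X := le_trans h.nonneg hXL
  obtain ⟨δ, hδd⟩ : ∃ δ : ℝ, δ = 1 + 2 * ε := ⟨_, rfl⟩
  have hδ : 0 < δ := by linarith
  obtain ⟨l, hl⟩ : ∃ l : ℝ, l = -Real.log τ := ⟨_, rfl⟩
  have hl0 : 0 < l := by
    rw [hl]
    linarith [Real.log_neg hτ0 hτ1]
  -- smallness of K
  obtain ⟨ε', hε'd⟩ : ∃ ε' : ℝ, ε' = min (ε * δ / l) (δ / (2 * l)) := ⟨_, rfl⟩
  have hε'0 : 0 < ε' := by
    rw [hε'd]
    exact lt_min (by positivity) (by positivity)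
  have hε'1 : ε' * l ≤ ε * δ := by
    have h1 : ε' ≤ ε * δ / l := by rw [hε'd]; exact min_le_left _ _
    rwa [le_div_iff₀ hl0] at h1
  have hε'2 : 2 * (ε' * l) ≤ δ := by
    have h1 : ε' ≤ δ / (2 * l) := by rw [hε'd]; exact min_le_right _ _
    rw [le_div_iff₀ (by positivity)] at h1
    linarith
  obtain ⟨C', hC'0, hC'⟩ := h.small hε'0
  obtain ⟨Y, hY⟩ : ∃ Y : ℝ, Y = X + μ * Real.log 2 := ⟨_, rfl⟩
  have hYX : X ≤ Y := by
    rw [hY]
    have : (0 : ℝ) ≤ μ * Real.log 2 := by positivity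
    linarith
  obtain ⟨C'', hC''⟩ : ∃ C'' : ℝ, C'' = ε' * (Y + Real.log 2) + C' := ⟨_, rfl⟩
  refine ⟨2 ^ μ + (1 + 2 ^ μ) * τ ^ (-(δ + C'') / δ), by positivity, ?_⟩
  have hlog : Tendsto (fun n : ℕ => Real.log (n : ℝ)) atTop atTop :=
    Real.tendsto_log_atTop.comp tendsto_natCast_atTop_atTop
  have hK := h.top.comp hlog
  filter_upwards [hlog.eventually_ge_atTop (2 * (Y + l * C' / δ)), hlog.eventually_ge_atTop X,
    hK.eventually_ge_atTop 0, eventually_ge_atTop 1] with n hn hnX hK0 hn1 A hAn hA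
  have hn0 : 0 < n := hn1
  have hnR : (0 : ℝ) < n := by exact_mod_cast hn0
  simp only [Function.comp] at hK0
  obtain ⟨κ, hκ⟩ : ∃ κ : ℝ, κ = K (Real.log n) := ⟨_, rfl⟩
  rw [← hκ] at hK0 ⊢
  have hY0 : 0 ≤ Y := le_trans hX0 hYX
  -- the depth used
  obtain ⟨Ls, hLs⟩ : ∃ Ls : ℝ, Ls = l * κ / δ + Y := ⟨_, rfl⟩
  have hLsY : Y ≤ Ls := by
    rw [hLs]
    have : 0 ≤ l * κ / δ := by positivity
    linarith
  have hLsn : Ls ≤ Real.log n := by
    have h1 := hC' (Real.log n) (le_trans hXL hnX)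
    rw [← hκ] at h1
    have h2 : l * κ / δ ≤ Real.log n / 2 + l * C' / δ := by
      rw [div_le_iff₀ hδ, add_mul, div_mul_cancel₀ _ hδ.ne']
      have h3 : l * κ ≤ l * (ε' * Real.log n + C') := mul_le_mul_of_nonneg_left h1 hl0.le
      have h4 : 0 ≤ Real.log n := le_trans hX0 hnX
      have h5 : 2 * (ε' * l) * Real.log n ≤ δ * Real.log n := mul_le_mul_of_nonneg_right hε'2 h4
      nlinarith
    rw [hLs]
    linarith
  obtain ⟨j, hj⟩ : ∃ j : ℕ, j = ⌊(Real.log n - Ls) / Real.log 2⌋₊ := ⟨_, rfl⟩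
  have hj1 : (j : ℝ) * Real.log 2 ≤ Real.log n - Ls := by
    rw [← le_div_iff₀ l2, hj]
    exact Nat.floor_le (div_nonneg (by linarith) l2.le)
  have hj2 : Real.log n - Ls < (j + 1) * Real.log 2 := by
    rw [← div_lt_iff₀ l2, hj]
    exact Nat.lt_floor_add_one _
  have hdep : ∀ i ≤ j, Y ≤ dep n i := by
    intro i hi
    have h1 : (i : ℝ) * Real.log 2 ≤ j * Real.log 2 :=
      mul_le_mul_of_nonneg_right (by exact_mod_cast hi) l2.le
    unfold dep
    linarith
  have hrec := recurP (κ := fun i => K (dep n i)) (κ₁ := κ - δ) (m₀ := j) hU hA hδ hη.le hτ hτ0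
    hτ1.le ?_ j le_rfl
  · obtain ⟨T, hT⟩ : ∃ T : ℝ, T = τ ^ ((κ - δ - K (dep n j)) / δ) := ⟨_, rfl⟩
    have hT0 : 0 ≤ T := by rw [hT]; exact Real.rpow_nonneg hτ0.le _
    rw [← hT] at hrec
    have hwhole := wholeP hT0 hAn hrec
    obtain ⟨U, hUd⟩ : ∃ U : ℝ, U = τ ^ ((1 - ε) * κ / δ) := ⟨_, rfl⟩
    have hU0 : 0 < U := by rw [hUd]; exact Real.rpow_pos_of_pos hτ0 _
    rw [← hδd, ← hUd]
    have hTU : T ≤ τ ^ (-(δ + C'') / δ) * U := by
      rw [hT, hUd, ← Real.rpow_add hτ0, ← add_div]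
      apply Real.rpow_le_rpow_of_exponent_ge hτ0 hτ1.le
      apply div_le_div_of_nonneg_right _ hδ.le
      have h1 : dep n j ≤ Ls + Real.log 2 := by
        unfold dep
        linarith
      have h2 := hC' (dep n j) (le_trans hXL (le_trans hYX (hdep j le_rfl)))
      have h3 : ε' * dep n j ≤ ε' * (Ls + Real.log 2) := mul_le_mul_of_nonneg_left h1 hε'0.le
      have h4 : ε' * (l * κ / δ) ≤ ε * κ := by
        have h5 : ε' * (l * κ / δ) = ε' * l * κ / δ := by ring
        rw [h5, div_le_iff₀ hδ]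
        have h6 := mul_le_mul_of_nonneg_right hε'1 hK0
        linarith
      rw [hLs] at h3
      rw [hC'']
      nlinarith
    have hjU : (2 : ℝ) ^ j ≤ n * U := by
      have h1 := exp_dep (j := j) hn0
      have h2 : Real.exp (-dep n j) ≤ U := by
        have h3 : U = Real.exp (Real.log τ * ((1 - ε) * κ / δ)) := by
          rw [hUd, Real.rpow_def_of_pos hτ0]
        rw [h3]
        apply Real.exp_le_exp.2
        have h4 : Ls ≤ dep n j := by
          unfold dep
          linarith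
        have h5 : Real.log τ = -l := by rw [hl]; ring
        rw [h5]
        have h6 : l * ((1 - ε) * κ / δ) ≤ l * κ / δ := by
          rw [mul_div_assoc', div_le_div_iff_of_pos_right hδ]
          have h7 : (1 - ε) * κ ≤ κ := by nlinarith
          exact mul_le_mul_of_nonneg_left h7 hl0.le
        rw [hLs] at h4
        linarith
      rw [← h1, mul_comm]
      exact mul_le_mul_of_nonneg_left h2 hnR.le
    have hjn : (2 : ℝ) ^ j ≤ n := by
      have := dep_nonneg hn0 (le_trans hY0 (hdep j le_rfl))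
      exact_mod_cast this
    have hμ0 : (0 : ℝ) < 2 ^ μ := by positivity
    calc (A.card : ℝ) ≤ 2 ^ μ * 2 ^ j + (n + 2 ^ μ * 2 ^ j) * T := hwhole
      _ ≤ 2 ^ μ * (n * U) + (n + 2 ^ μ * n) * (τ ^ (-(δ + C'') / δ) * U) := by
          apply add_le_add
          · exact mul_le_mul_of_nonneg_left hjU hμ0.le
          · apply mul_le_mul _ hTU hT0 (by positivity)
            have := mul_le_mul_of_nonneg_left hjn hμ0.le
            linarith
      _ = (2 ^ μ + (1 + 2 ^ μ) * τ ^ (-(δ + C'') / δ)) * n * U := by ring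
  · -- the steps
    intro i hi
    have hL := hdep i hi
    obtain ⟨L, hLd⟩ : ∃ L, L = dep n i := ⟨_, rfl⟩
    rw [← hLd] at hL
    have hLX : X ≤ L := le_trans hYX hL
    have hgap := hX₂ L (by linarith)
    have hgap1 : L + Real.log 2 ≤ Φ L := by
      have := le_max_left (Real.log 2) (-Real.log η)
      linarith
    have hgap2 : L - Real.log η ≤ Φ L := by
      have := le_max_right (Real.log 2) (-Real.log η)
      linarith
    have hK3 := hX₃ L (by linarith)
    have hΦX : X ≤ Φ L := by linarith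
    have hsh := hX₁ (Φ L) (by linarith) ((μ + 1) * Real.log 2) (by positivity) le_rfl
    by_cases hcase : Real.log n < Φ L + (μ + 1) * Real.log 2
    · left
      have h1 : K (Real.log n) ≤ K (Φ L + (μ + 1) * Real.log 2) := by
        apply h.kmono (le_trans hXL hnX) _ hcase.le
        exact le_trans hXL (le_trans hnX hcase.le)
      rw [← hκ] at h1
      rw [← hLd, hδd]
      linarith
    · right
      push Not at hcase
      obtain ⟨p, hp⟩ : ∃ p : ℕ, p = ⌊(Real.log n - Φ L) / Real.log 2⌋₊ := ⟨_, rfl⟩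
      have hpos : 0 ≤ Real.log n - Φ L := by
        have : (0 : ℝ) ≤ (μ + 1) * Real.log 2 := by positivity
        linarith
      have hp1 : (p : ℝ) * Real.log 2 ≤ Real.log n - Φ L := by
        rw [← le_div_iff₀ l2, hp]
        exact Nat.floor_le (div_nonneg hpos l2.le)
      have hp2 : Real.log n - Φ L < (p + 1) * Real.log 2 := by
        rw [← div_lt_iff₀ l2, hp]
        exact Nat.lt_floor_add_one _
      have hμp : μ < p + 1 := by
        have h1 : ((μ : ℝ) + 1) * Real.log 2 < (p + 1) * Real.log 2 := by linarith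
        have h2 := lt_of_mul_lt_mul_right h1 l2.le
        have h3 : (μ : ℝ) < (p : ℝ) := by linarith
        have h4 : μ < p := by exact_mod_cast h3
        omega
      have hiL : (i : ℝ) * Real.log 2 = Real.log n - L := by
        rw [hLd]
        unfold dep
        ring
      have hpi : p < i := by
        have h1 : (p : ℝ) * Real.log 2 < i * Real.log 2 := by
          rw [hiL]
          linarith
        have h2 := lt_of_mul_lt_mul_right h1 l2.le
        exact_mod_cast h2
      have h2p : (2 : ℝ) ^ p ≤ n * Real.exp (-Φ L) := by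
        have h3 : Real.exp (p * Real.log 2) ≤ Real.exp (Real.log n - Φ L) :=
          Real.exp_le_exp.2 hp1
        rw [Real.exp_sub, Real.exp_log hnR, mul_comm (p : ℝ), Real.exp_mul,
          Real.exp_log (by norm_num), Real.rpow_natCast] at h3
        rw [Real.exp_neg, ← div_eq_mul_inv]
        exact h3
      refine ⟨p, p - μ, by omega, by omega, fun i' hi' => ⟨?_, ?_⟩, ?_, ?_⟩
      · apply dep_nonneg hn0
        have h1 : dep n (i' + i) = L - i' * Real.log 2 := by
          rw [hLd]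
          unfold dep
          push_cast
          ring
        have h2 : (i' : ℝ) * Real.log 2 ≤ μ * Real.log 2 :=
          mul_le_mul_of_nonneg_right (by exact_mod_cast hi'.le) l2.le
        rw [h1]
        linarith
      · have h1 : dep n (i' + i) = L - i' * Real.log 2 := by
          rw [hLd]
          unfold dep
          push_cast
          ring
        have h2 : (i' : ℝ) * Real.log 2 ≤ μ * Real.log 2 :=
          mul_le_mul_of_nonneg_right (by exact_mod_cast hi'.le) l2.le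
        have h2' : (0 : ℝ) ≤ (i' : ℝ) * Real.log 2 := by positivity
        have h3 : Φ (dep n (i' + i)) ≤ Φ L := by
          rw [h1]
          apply h.mono _ (le_trans hXL hLX) (by linarith)
          exact le_trans hXL (by linarith)
        have h4 : Real.exp (-Φ L) ≤ Real.exp (-Φ (dep n (i' + i))) :=
          Real.exp_le_exp.2 (neg_le_neg h3)
        have h5 : ((2 ^ p - 1 : ℕ) : ℝ) < 2 ^ p := by
          have h6 : 2 ^ p - 1 < 2 ^ p := Nat.sub_lt (by positivity) (by norm_num)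
          exact_mod_cast h6
        calc ((2 ^ p - 1 : ℕ) : ℝ) < 2 ^ p := h5
          _ ≤ n * Real.exp (-Φ L) := h2p
          _ ≤ n * Real.exp (-Φ (dep n (i' + i))) := mul_le_mul_of_nonneg_left h4 hnR.le
      · have h1 := exp_dep (j := i) hn0
        rw [← hLd] at h1
        calc (2 : ℝ) ^ p ≤ n * Real.exp (-Φ L) := h2p
          _ ≤ n * Real.exp (-L + Real.log η) := by
              apply mul_le_mul_of_nonneg_left _ hnR.le
              apply Real.exp_le_exp.2
              linarith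
          _ = η * 2 ^ i := by
              rw [Real.exp_add, Real.exp_log hη, ← h1]
              ring
      · have h1 : dep n (p - μ) ≤ Φ L + (μ + 1) * Real.log 2 := by
          unfold dep
          rw [Nat.cast_sub (by omega)]
          linarith
        have h2 : X ≤ dep n (p - μ) := le_trans hYX (hdep _ (by omega))
        have h3 : K (dep n (p - μ)) ≤ K (Φ L + (μ + 1) * Real.log 2) := by
          apply h.kmono (le_trans hXL h2) _ h1
          exact le_trans (le_trans hXL h2) h1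
        rw [← hLd, hδd]
        linarith

end Pool.Agent.H669.NP
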