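import Pool.Graph.R_seed8.Y869.NP.Gen

set_option autoImplicit false

/-!
# Sets without near progressions: the construction for arbitrary widths

`P j w` says that the width `w` is admissible for the difference `2 ^ j`. The step of the
construction of the library (`Pool.Agent.Y869.NP.Gen`), for an arbitrary predicate `P`.
-/

namespace Pool.Agent.H669.NP

open Pool.Agent.Y869.NP.Gen

/-- sets of length `L` good below level `m` with density `D` -/
def QP (P : ℕ → ℕ → Prop) (k m : ℕ) (D : ℝ) : Prop :=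
  ∀ L : ℕ, 2 ^ m ≤ 2 * L → ∃ A : Finset ℤ, (∀ a ∈ A, 0 ≤ a ∧ a < L) ∧
    (∀ j : ℕ, j < m → ∀ w : ℕ, P j w → ¬ Near A k (2 ^ j) w) ∧ D * L ≤ A.card

theorem QP.mono {P : ℕ → ℕ → Prop} {k m : ℕ} {D D' : ℝ} (h : QP P k m D) (hD : D' ≤ D) :
    QP P k m D' := by
  intro L hL
  obtain ⟨A, h1, h2, h3⟩ := h L hL
  exact ⟨A, h1, h2, le_trans (mul_le_mul_of_nonneg_right hD (Nat.cast_nonneg _)) h3⟩

/-- One step of the construction. -/
theorem stepP {P : ℕ → ℕ → Prop} {k m g r : ℕ} {D ρ : ℝ} (hk : 0 < k) (hD : 0 ≤ D) (hρ : 0 ≤ ρ)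
    (hr1 : 1 ≤ r) (hrm : r ≤ m) (hg1 : 1 ≤ g)
    (hPlt : ∀ j w : ℕ, j < m → P j w → w < 2 ^ j)
    (hex : ∀ M : ℕ, ∃ Y : Finset ℕ, Y ⊆ Finset.range M ∧ PFree k Y ∧ ρ * M ≤ Y.card)
    (hQ : QP P k m D) (hw : ∀ j w : ℕ, j < m + g → P j w → w ≤ 2 ^ (m - r)) :
    QP P k (m + g) (D * ρ * ((1 - 1 / 2 ^ r) * (1 - 1 / 2 ^ (g - 1)))) := by
  classical
  intro L hL
  obtain ⟨W, hP⟩ : ∃ W : ℕ, W = 2 ^ m := ⟨_, rfl⟩
  have hPpos : 0 < W := by rw [hP]; positivity
  obtain ⟨G, hG⟩ : ∃ G : ℕ, G = 2 ^ (m - r) := ⟨_, rfl⟩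
  have hGP : G * 2 ^ r = W := by rw [hG, hP, ← pow_add]; congr 1; omega
  have hG2 : 2 * G ≤ W := by
    have : 2 ^ 1 ≤ 2 ^ r := Nat.pow_le_pow_right (by norm_num) hr1
    rw [← hGP]
    nlinarith
  obtain ⟨Y, hYM, hYfree, hYcard⟩ := hex (L / W)
  -- the sets for the run lengths
  have hA : ∀ l : ℕ, ∃ A : Finset ℤ, 1 ≤ l → ((∀ a ∈ A, 0 ≤ a ∧ a < (l * W : ℤ) - G) ∧
      (∀ j : ℕ, j < m → ∀ w : ℕ, P j w → ¬ Near A k (2 ^ j) w) ∧
      D * ((l * W : ℝ) - G) ≤ A.card) := by
    intro l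
    by_cases hl : 1 ≤ l
    · have h1 : W ≤ l * W := Nat.le_mul_of_pos_left _ hl
      obtain ⟨A, hA1, hA2, hA3⟩ := hQ (l * W - G) (by rw [← hP]; omega)
      have hc : ((l * W - G : ℕ) : ℤ) = (l * W : ℤ) - G := by
        rw [Nat.cast_sub (by omega)]; push_cast; ring
      have hc' : ((l * W - G : ℕ) : ℝ) = (l * W : ℝ) - G := by
        rw [Nat.cast_sub (by omega)]; push_cast; ring
      rw [hc] at hA1
      rw [hc'] at hA3
      exact ⟨A, fun _ => ⟨hA1, hA2, hA3⟩⟩
    · exact ⟨∅, fun h => absurd h hl⟩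
  choose A hA using hA
  have hstartY : ∀ s ∈ starts Y, s ∈ Y := fun s hs => (Finset.mem_filter.1 hs).1
  let f : ℕ → Finset ℤ := fun s => (A (len Y s)).image (fun x => (W : ℤ) * s + G + x)
  have hf : ∀ s ∈ starts Y, ∀ a ∈ f s, (W : ℤ) * s + G ≤ a ∧ a < W * (s + len Y s) := by
    intro s hs a ha
    rw [Finset.mem_image] at ha
    obtain ⟨x, hx, rfl⟩ := ha
    have := ((hA (len Y s)) (len_pos (hstartY s hs))).1 x hx
    constructor
    · linarith
    · have : (W : ℤ) * (s + len Y s) = W * s + len Y s * W := by ring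
      linarith
  have hPZ : (0 : ℤ) < W := by exact_mod_cast hPpos
  have hsepZ : ∀ s ∈ starts Y, ∀ s' ∈ starts Y, s < s' →
      (W : ℤ) * (s + len Y s) + W ≤ W * s' := by
    intro s _ s' hs' h
    have h1 := sep hs' h
    have h2 : (s : ℤ) + len Y s + 1 ≤ s' := by exact_mod_cast h1
    have h3 := mul_le_mul_of_nonneg_left h2 hPZ.le
    linarith
  refine ⟨(starts Y).biUnion f, ?_, ?_, ?_⟩
  · -- range
    intro a ha
    rw [Finset.mem_biUnion] at ha
    obtain ⟨s, hs, ha⟩ := ha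
    obtain ⟨h1, h2⟩ := hf s hs a ha
    constructor
    · have : (0 : ℤ) ≤ W * s + G := by positivity
      linarith
    · have h3 := len_mem Y s (len Y s - 1) (by have := len_pos (hstartY s hs); omega)
      have h4 := Finset.mem_range.1 (hYM h3)
      have h5 : s + len Y s ≤ L / W := by have := len_pos (hstartY s hs); omega
      have h6 : W * (s + len Y s) ≤ L :=
        (Nat.mul_le_mul_left W h5).trans (Nat.mul_div_le L W)
      have h7 : (W : ℤ) * (s + len Y s) ≤ L := by exact_mod_cast h6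
      linarith
  · -- avoidance
    intro j hj w hwj hnear
    obtain ⟨b, hb⟩ := hnear
    rcases le_or_gt m j with hmj | hjm
    · obtain ⟨e, rfl⟩ := Nat.exists_eq_add_of_le hmj
      have hwG : (w : ℤ) ≤ G := by
        rw [hG]; exact_mod_cast hw _ w hj hwj
      -- the cells
      have hβ0 := Int.emod_nonneg b hPZ.ne'
      have hβ1 := Int.emod_lt_of_pos b hPZ
      have hbd := Int.emod_add_mul_ediv b (W : ℤ)
      obtain ⟨y, hy⟩ : ∃ y : ℤ, y = b / W := ⟨_, rfl⟩
      obtain ⟨β, hβ⟩ : ∃ β : ℤ, β = b % W := ⟨_, rfl⟩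
      rw [← hβ] at hβ0 hβ1 hbd
      rw [← hy] at hbd
      have hcell : ∀ i : ℕ, i < k → ∃ z : ℕ, (z : ℤ) = y + i * 2 ^ e ∧ z ∈ Y := by
        intro i hi
        obtain ⟨a, ha, h1, h2⟩ := hb i hi
        rw [Finset.mem_biUnion] at ha
        obtain ⟨s, hs, ha⟩ := ha
        obtain ⟨h3, h4⟩ := hf s hs a ha
        obtain ⟨U, hU⟩ : ∃ U : ℤ, U = y + i * 2 ^ e := ⟨_, rfl⟩
        have hbi : b + i * 2 ^ (m + e) = β + W * U := by
          have : (W : ℤ) = 2 ^ m := by rw [hP]; push_cast; rfl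
          rw [hU, pow_add, ← this]
          linear_combination -hbd
        rw [hbi] at h1 h2
        -- s ≤ U < s + len
        have h5 : (s : ℤ) ≤ U := by
          by_contra hcon
          push Not at hcon
          have h6 : U + 1 ≤ s := hcon
          have h7 := mul_le_mul_of_nonneg_left h6 hPZ.le
          linarith
        have h6 : U < s + len Y s := by
          by_contra hcon
          push Not at hcon
          have h7 := mul_le_mul_of_nonneg_left hcon hPZ.le
          linarith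
        have hU0 : 0 ≤ U := by linarith [Int.natCast_nonneg s]
        obtain ⟨z, hz⟩ := Int.eq_ofNat_of_zero_le hU0
        refine ⟨z, by rw [← hU, hz], ?_⟩
        rw [hz] at h5 h6
        have h8 : s ≤ z := by exact_mod_cast h5
        have h9 : z < s + len Y s := by exact_mod_cast h6
        have := len_mem Y s (z - s) (by omega)
        rwa [show s + (z - s) = z by omega] at this
      obtain ⟨z₀, hz₀, hz₀Y⟩ := hcell 0 hk
      refine hYfree z₀ e (fun l hl => ?_)
      obtain ⟨z, hz, hzY⟩ := hcell l hl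
      have : z = z₀ + l * 2 ^ e := by
        have h1 : (z : ℤ) = z₀ + l * 2 ^ e := by
          rw [hz, hz₀]; push_cast; ring
        exact_mod_cast h1
      rw [← this]
      exact hzY
    · -- small differences
      have hex' : ∀ i : ℕ, ∃ s : ℕ, ∃ x : ℤ, i < k → s ∈ starts Y ∧ x ∈ A (len Y s) ∧
          b + i * 2 ^ j ≤ W * s + G + x ∧ W * s + G + x ≤ b + i * 2 ^ j + w := by
        intro i
        by_cases hi : i < k
        · obtain ⟨a, ha, h3, h4⟩ := hb i hi
          rw [Finset.mem_biUnion] at ha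
          obtain ⟨s, hs, ha⟩ := ha
          rw [Finset.mem_image] at ha
          obtain ⟨x, hx, rfl⟩ := ha
          exact ⟨s, x, fun _ => ⟨hs, hx, h3, h4⟩⟩
        · exact ⟨0, 0, fun h => absurd h hi⟩
      choose s x hsx using hex'
      have hwlt : w < 2 ^ j := hPlt j w hjm hwj
      have hwlt' : (w : ℤ) + 1 ≤ 2 ^ j := by exact_mod_cast hwlt
      have hjP : 2 * (2 : ℤ) ^ j ≤ W := by
        rw [hP]
        push_cast
        calc 2 * (2 : ℤ) ^ j = 2 ^ (j + 1) := by ring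
          _ ≤ 2 ^ m := pow_le_pow_right₀ (by norm_num) hjm
      have hconst : ∀ i : ℕ, i < k → s i = s 0 := by
        intro i
        induction i with
        | zero => intro _; rfl
        | succ i ih =>
          intro hi
          rw [← ih (by omega)]
          obtain ⟨e0, e1, e2, e3⟩ := hsx i (by omega)
          obtain ⟨f0, f1, f2, f3⟩ := hsx (i + 1) hi
          have a1 := hf _ e0 _ (Finset.mem_image_of_mem _ e1)
          have a2 := hf _ f0 _ (Finset.mem_image_of_mem _ f1)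
          push_cast at f2 f3
          have hGn : (0 : ℤ) ≤ G := by positivity
          rcases lt_trichotomy (s (i + 1)) (s i) with hlt | heq | hgt
          · exfalso
            have := hsepZ _ f0 _ e0 hlt
            linarith
          · exact heq
          · exfalso
            have := hsepZ _ e0 _ f0 hgt
            linarith
      have hs0 := (hsx 0 hk).1
      refine ((hA (len Y (s 0))) (len_pos (hstartY _ hs0))).2.1 j hjm w hwj
        ⟨b - (W * s 0 + G), fun i hi => ⟨x i, ?_, ?_, ?_⟩⟩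
      · have := (hsx i hi).2.1
        rwa [hconst i hi] at this
      · have := (hsx i hi).2.2.1
        rw [hconst i hi] at this
        linarith
      · have := (hsx i hi).2.2.2
        rw [hconst i hi] at this
        linarith
  · -- cardinality
    have hdisj : ∀ s ∈ starts Y, ∀ s' ∈ starts Y, s ≠ s' → Disjoint (f s) (f s') := by
      intro s hs s' hs' hne
      rw [Finset.disjoint_left]
      intro a ha ha'
      have h1 := hf s hs a ha
      have h2 := hf s' hs' a ha'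
      have hGn : (0 : ℤ) ≤ G := by positivity
      rcases lt_or_gt_of_ne hne with h | h
      · have := hsepZ s hs s' hs' h
        linarith
      · have := hsepZ s' hs' s hs h
        linarith
    rw [Finset.card_biUnion hdisj]
    have hcardf : ∀ s, (f s).card = (A (len Y s)).card := by
      intro s
      apply Finset.card_image_of_injective
      intro a b hab
      simpa using hab
    push_cast
    have hGR : (G : ℝ) * 2 ^ r = W := by exact_mod_cast hGP
    have hPR : (0 : ℝ) < W := by exact_mod_cast hPpos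
    have hGR' : (G : ℝ) = W * (1 / 2 ^ r) := by
      rw [mul_one_div, eq_div_iff (by positivity)]
      exact hGR
    have hr' : (1 : ℝ) / 2 ^ r ≤ 1 := by
      rw [div_le_one (by positivity)]
      exact one_le_pow₀ (by norm_num)
    obtain ⟨δ, hδ⟩ : ∃ δ : ℝ, δ = 1 / 2 ^ r := ⟨_, rfl⟩
    rw [← hδ] at hGR' hr' ⊢
    obtain ⟨η, hη⟩ : ∃ η : ℝ, η = 1 / 2 ^ (g - 1) := ⟨_, rfl⟩
    rw [← hη]
    have hη1 : η ≤ 1 := by
      rw [hη, div_le_one (by positivity)]
      exact one_le_pow₀ (by norm_num)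
    have h1 : ∀ s ∈ starts Y, D * ((1 - δ) * W) * (len Y s : ℝ) ≤ ((f s).card : ℝ) := by
      intro s hs
      rw [hcardf s]
      have hl := len_pos (hstartY s hs)
      have h2 := ((hA (len Y s)) hl).2.2
      refine le_trans ?_ h2
      have hl' : (1 : ℝ) ≤ len Y s := by exact_mod_cast hl
      have hδ0 : 0 ≤ δ := by rw [hδ]; positivity
      rw [mul_assoc]
      apply mul_le_mul_of_nonneg_left _ hD
      rw [hGR']
      have : 0 ≤ δ * W * ((len Y s : ℝ) - 1) := by
        apply mul_nonneg (by positivity)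
        linarith
      nlinarith
    have h3 : (W : ℝ) * ((L / W : ℕ) : ℝ) ≥ (1 - η) * L := by
      have h4 : L ≤ W * (L / W) + W := by
        have := Nat.div_add_mod L W
        have := Nat.mod_lt L hPpos
        omega
      have h4R : (L : ℝ) ≤ W * ((L / W : ℕ) : ℝ) + W := by exact_mod_cast h4
      have h5 : (W : ℝ) ≤ η * L := by
        have h6 : W * 2 ^ (g - 1) ≤ L := by
          have h7 : 2 ^ (m + g) = 2 * (W * 2 ^ (g - 1)) := by
            rw [hP, ← pow_add, ← pow_succ']; congr 1; omega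
          omega
        have h6R : (W : ℝ) * 2 ^ (g - 1) ≤ L := by exact_mod_cast h6
        rw [hη, one_div, inv_mul_eq_div, le_div_iff₀ (by positivity)]
        exact h6R
      linarith
    have hsumcard : (Y.card : ℝ) ≤ ∑ s ∈ starts Y, (len Y s : ℝ) := by
      exact_mod_cast card_le_sum Y
    calc D * ρ * ((1 - δ) * (1 - η)) * L = D * (1 - δ) * ρ * ((1 - η) * L) := by ring
      _ ≤ D * (1 - δ) * ρ * (W * ((L / W : ℕ) : ℝ)) := by
          apply mul_le_mul_of_nonneg_left h3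
          have : 0 ≤ 1 - δ := by linarith
          positivity
      _ = D * ((1 - δ) * W) * (ρ * ((L / W : ℕ) : ℝ)) := by ring
      _ ≤ D * ((1 - δ) * W) * (Y.card : ℝ) := by
          apply mul_le_mul_of_nonneg_left hYcard
          have : 0 ≤ 1 - δ := by linarith
          positivity
      _ ≤ D * ((1 - δ) * W) * ∑ s ∈ starts Y, (len Y s : ℝ) := by
          apply mul_le_mul_of_nonneg_left hsumcard
          have : 0 ≤ 1 - δ := by linarith
          positivity
      _ = ∑ s ∈ starts Y, D * ((1 - δ) * W) * (len Y s : ℝ) := by rw [Finset.mul_sum]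
      _ ≤ ∑ s ∈ starts Y, ((f s).card : ℝ) := Finset.sum_le_sum h1

/-- The first level. -/
theorem baseP {P : ℕ → ℕ → Prop} {k m : ℕ} {ρ : ℝ} (hk : 0 < k)
    (hex : ∀ M : ℕ, ∃ Y : Finset ℕ, Y ⊆ Finset.range M ∧ PFree k Y ∧ ρ * M ≤ Y.card)
    (hw : ∀ j w : ℕ, j < m → P j w → w = 0) : QP P k m ρ := by
  classical
  intro L _
  obtain ⟨Y, hY1, hY2, hY3⟩ := hex L
  refine ⟨Y.image (fun y : ℕ => (y : ℤ)), ?_, ?_, ?_⟩
  · intro a ha
    rw [Finset.mem_image] at ha
    obtain ⟨y, hy, rfl⟩ := ha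
    have := Finset.mem_range.1 (hY1 hy)
    exact ⟨by positivity, by exact_mod_cast this⟩
  · rintro j hj w hwj ⟨b, hb⟩
    have hw0 := hw j w hj hwj
    subst hw0
    have hall : ∀ i : ℕ, i < k → ∃ y ∈ Y, (y : ℤ) = b + i * 2 ^ j := by
      intro i hi
      obtain ⟨a, ha, h3, h4⟩ := hb i hi
      rw [Finset.mem_image] at ha
      obtain ⟨y, hy, rfl⟩ := ha
      push_cast at h4
      exact ⟨y, hy, by linarith⟩
    obtain ⟨y₀, hy₀, hb0⟩ := hall 0 hk
    refine hY2 y₀ j (fun l hl => ?_)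
    obtain ⟨y, hy, hby⟩ := hall l hl
    have : y = y₀ + l * 2 ^ j := by
      have h1 : (y : ℤ) = y₀ + l * 2 ^ j := by rw [hby, hb0]; push_cast; ring
      exact_mod_cast h1
    rw [← this]
    exact hy
  · rw [Finset.card_image_of_injective _ (fun a b hab => by simpa using hab)]
    exact hY3

/-- All levels: `κ` is a potential which increases by `δ` at each step. -/
theorem chainP {P : ℕ → ℕ → Prop} {k r m₀ : ℕ} {ρ δ κ₁ : ℝ} {κ : ℕ → ℝ} (hk : 0 < k) (hρ0 : 0 < ρ)
    (hρ1 : ρ ≤ 1) (hδ : 0 < δ) (hr1 : 1 ≤ r)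
    (hex : ∀ M : ℕ, ∃ Y : Finset ℕ, Y ⊆ Finset.range M ∧ PFree k Y ∧ ρ * M ≤ Y.card)
    (hPlt : ∀ j w : ℕ, j < m₀ → P j w → w < 2 ^ j)
    (hκ : ∀ m' ≤ m₀, κ m' ≤ κ₁)
    (hstep : ∀ m' ≤ m₀, (∀ j w : ℕ, j < m' → P j w → w = 0) ∨
      ∃ m g : ℕ, m + g = m' ∧ r ≤ m ∧ r + 1 ≤ g ∧
        (∀ j w : ℕ, j < m' → P j w → w ≤ 2 ^ (m - r)) ∧ κ m' + δ ≤ κ m) :
    ∀ m' ≤ m₀, QP P k m' (ρ * (ρ * (1 - 1 / 2 ^ r) ^ 2) ^ ((κ₁ - κ m') / δ)) := by
  intro m'
  have hx0 : (0 : ℝ) < 1 / 2 ^ r := by positivity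
  have hx1 : (1 : ℝ) / 2 ^ r ≤ 1 / 2 := by
    apply one_div_le_one_div_of_le (by norm_num)
    calc (2 : ℝ) = 2 ^ 1 := by norm_num
      _ ≤ 2 ^ r := pow_le_pow_right₀ (by norm_num) hr1
  obtain ⟨x, hx⟩ : ∃ x : ℝ, x = 1 / 2 ^ r := ⟨_, rfl⟩
  rw [← hx] at hx0 hx1
  have hσ0 : 0 < ρ * (1 - x) ^ 2 := by
    have : 0 < 1 - x := by linarith
    positivity
  have hσ1 : ρ * (1 - x) ^ 2 ≤ 1 := by
    have h1 : (1 - x) ^ 2 ≤ 1 := by nlinarith
    nlinarith [sq_nonneg (1 - x)]
  induction m' using Nat.strong_induction_on with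
  | _ m' ih =>
    intro hm'
    rcases hstep m' hm' with hb | ⟨m, g, hmg, hrm, hgr, hw, hpot⟩
    · refine (baseP hk hex hb).mono ?_
      have h1 : 0 ≤ (κ₁ - κ m') / δ := div_nonneg (by linarith [hκ m' hm']) hδ.le
      rw [← hx]
      have h2 : (ρ * (1 - x) ^ 2) ^ ((κ₁ - κ m') / δ) ≤ 1 := Real.rpow_le_one hσ0.le hσ1 h1
      nlinarith
    · have hIH := ih m (by omega) (by omega)
      rw [← hx] at hIH ⊢
      have hD0 : 0 ≤ ρ * (ρ * (1 - x) ^ 2) ^ ((κ₁ - κ m) / δ) :=
        mul_nonneg hρ0.le (Real.rpow_nonneg hσ0.le _)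
      have hs := stepP (m := m) (g := g) (r := r) hk hD0 hρ0.le hr1 hrm (by omega)
        (fun j w hj => hPlt j w (by omega)) hex hIH (fun j w hj => hw j w (by omega))
      rw [hmg] at hs
      refine hs.mono ?_
      have h1 : (1 : ℝ) / 2 ^ (g - 1) ≤ x := by
        rw [hx]
        apply one_div_le_one_div_of_le (by positivity)
        exact pow_le_pow_right₀ (by norm_num) (by omega)
      have h2 : (κ₁ - κ m) / δ + 1 ≤ (κ₁ - κ m') / δ := by
        rw [div_add_one hδ.ne']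
        apply div_le_div_of_nonneg_right _ hδ.le
        linarith
      have h3 : (ρ * (1 - x) ^ 2) ^ ((κ₁ - κ m') / δ) ≤
          (ρ * (1 - x) ^ 2) ^ ((κ₁ - κ m) / δ) * (ρ * (1 - x) ^ 2) := by
        calc (ρ * (1 - x) ^ 2) ^ ((κ₁ - κ m') / δ) ≤ (ρ * (1 - x) ^ 2) ^ ((κ₁ - κ m) / δ + 1) :=
              Real.rpow_le_rpow_of_exponent_ge hσ0 hσ1 h2
          _ = _ := by rw [Real.rpow_add hσ0, Real.rpow_one]
      have h4 : 0 ≤ (ρ * (1 - x) ^ 2) ^ ((κ₁ - κ m) / δ) := Real.rpow_nonneg hσ0.le _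
      have h5 : (1 - x) ^ 2 ≤ (1 - 1 / 2 ^ r) * (1 - 1 / 2 ^ (g - 1)) := by
        rw [← hx]
        nlinarith
      calc ρ * (ρ * (1 - x) ^ 2) ^ ((κ₁ - κ m') / δ)
          ≤ ρ * ((ρ * (1 - x) ^ 2) ^ ((κ₁ - κ m) / δ) * (ρ * (1 - x) ^ 2)) :=
            mul_le_mul_of_nonneg_left h3 hρ0.le
        _ = ρ * (ρ * (1 - x) ^ 2) ^ ((κ₁ - κ m) / δ) * ρ * (1 - x) ^ 2 := by ring
        _ ≤ _ := by
            apply mul_le_mul_of_nonneg_left h5
            positivity

end Pool.Agent.H669.NP
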