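import Pool.Agent.H669.NP.Ana

set_option autoImplicit false

/-!
# Families of width functions with their Abel functions
-/

namespace Pool.Agent.H669.NP

open Filter Topology

theorem log_succ_sub : Tendsto (fun L : ℝ => Real.log (L + 1) - Real.log L) atTop (𝓝 0) := by
  have h1 : Tendsto (fun L : ℝ => 1 + 1 / L) atTop (𝓝 (1 + 0)) :=
    tendsto_const_nhds.add (tendsto_const_nhds.div_atTop tendsto_id)
  rw [add_zero] at h1
  have h2 := h1.log one_ne_zero
  rw [Real.log_one] at h2
  refine h2.congr' ?_
  filter_upwards [eventually_gt_atTop (0 : ℝ)] with L hL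
  rw [← Real.log_div (by linarith) hL.ne']
  congr 1
  field_simp

/-- powers of the ratio: `w / d < (d / n) ^ a` -/
theorem abel_mul {a : ℝ} (ha : 0 < a) :
    Abel (fun L => (1 + a) * L) (fun L => Real.log L / Real.log (1 + a)) 1 := by
  have hl : 0 < Real.log (1 + a) := Real.log_pos (by linarith)
  refine ⟨zero_le_one, ?_, ?_, ?_, ?_, ?_⟩
  · intro x _ y _ h
    exact mul_le_mul_of_nonneg_left h (by linarith)
  · intro L hL
    nlinarith
  · intro x hx y _ h
    have hx' : (1 : ℝ) ≤ x := hx
    exact div_le_div_of_nonneg_right (Real.log_le_log (by linarith) h) hl.le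
  · have h := log_succ_sub.div_const (Real.log (1 + a))
    rw [zero_div] at h
    refine h.congr fun L => ?_
    rw [sub_div]
  · refine tendsto_const_nhds.congr' ?_
    filter_upwards [eventually_gt_atTop (0 : ℝ)] with L hL
    rw [Real.log_mul (by linarith) hL.ne', add_div, div_self hl.ne']
    ring

/-- the critical family: `w / d < exp (- κ L / log L)`, `L = log (n / d)` -/
theorem abel_thr {κ : ℝ} (hκ : 0 < κ) :
    Abel (fun L => L + κ * L / Real.log L) (fun L => Real.log L ^ 2 / (2 * κ)) (Real.exp 1) := by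
  have he : (0 : ℝ) < Real.exp 1 := Real.exp_pos 1
  have hlog : ∀ x : ℝ, Real.exp 1 ≤ x → 1 ≤ Real.log x := by
    intro x hx
    rw [Real.le_log_iff_exp_le (by linarith)]
    exact hx
  refine ⟨he.le, ?_, ?_, ?_, ?_, ?_⟩
  · intro x hx y hy h
    have hx' : Real.exp 1 ≤ x := hx
    have hy' : Real.exp 1 ≤ y := hy
    have h1 : Real.log y / y ≤ Real.log x / x := Real.log_div_self_antitoneOn hx' hy' h
    have hx0 : 0 < x := by linarith
    have hy0 : 0 < y := by linarith
    have hlx : 0 < Real.log x := by linarith [hlog x hx']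
    have hly : 0 < Real.log y := by linarith [hlog y hy']
    rw [div_le_div_iff₀ hy0 hx0] at h1
    have h2 : κ * x / Real.log x ≤ κ * y / Real.log y := by
      rw [div_le_div_iff₀ hlx hly]
      nlinarith
    simp only
    linarith
  · intro L hL
    have h1 := hlog L hL
    have h2 : 0 ≤ κ * L / Real.log L := by
      apply div_nonneg _ (by linarith)
      exact mul_nonneg hκ.le (by linarith)
    linarith
  · intro x hx y hy h
    have hx' : Real.exp 1 ≤ x := hx
    have h1 := hlog x hx'
    have h2 : Real.log x ≤ Real.log y := Real.log_le_log (by linarith) h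
    simp only
    apply div_le_div_of_nonneg_right _ (by linarith)
    nlinarith
  · have h1 : Tendsto (fun L : ℝ => L * Real.log (1 + 1 / L)) atTop (𝓝 1) :=
      Real.tendsto_mul_log_one_add_div_atTop 1
    have h2 : Tendsto (fun L : ℝ => Real.log L ^ 1 / (1 * L + 0)) atTop (𝓝 0) :=
      Real.tendsto_pow_log_div_mul_add_atTop 1 0 1 one_ne_zero
    have h3 := h2.mul h1
    have h4 := ((h3.const_mul 2).add (log_succ_sub.pow 2)).div_const (2 * κ)
    have h5 : (2 * ((0 : ℝ) * 1) + 0 ^ 2) / (2 * κ) = 0 := by simp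
    rw [h5] at h4
    refine h4.congr' ?_
    filter_upwards [eventually_gt_atTop (0 : ℝ)] with L hL
    have h6 : Real.log (1 + 1 / L) = Real.log (L + 1) - Real.log L := by
      rw [← Real.log_div (by linarith) hL.ne']
      congr 1
      field_simp
    rw [h6]
    field_simp
    ring
  · have h1 : Tendsto (fun L : ℝ => Real.log L * Real.log (1 + κ / Real.log L)) atTop (𝓝 κ) :=
      (Real.tendsto_mul_log_one_add_div_atTop κ).comp Real.tendsto_log_atTop
    have h2 : Tendsto (fun L : ℝ => 1 + κ / Real.log L) atTop (𝓝 (1 + 0)) :=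
      tendsto_const_nhds.add (tendsto_const_nhds.div_atTop Real.tendsto_log_atTop)
    rw [add_zero] at h2
    have h3 := h2.log one_ne_zero
    rw [Real.log_one] at h3
    have h4 := ((h1.const_mul 2).add (h3.pow 2)).div_const (2 * κ)
    have h5 : (2 * κ + 0 ^ 2) / (2 * κ) = 1 := by
      field_simp
      ring
    rw [h5] at h4
    refine h4.congr' ?_
    filter_upwards [eventually_ge_atTop (Real.exp 1)] with L hL
    have h6 := hlog L hL
    have hL0 : 0 < L := by linarith
    have h7 : L + κ * L / Real.log L = L * (1 + κ / Real.log L) := by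
      field_simp
    have h8 : 0 < 1 + κ / Real.log L := by
      have : 0 ≤ κ / Real.log L := div_nonneg hκ.le (by linarith)
      linarith
    rw [h7, Real.log_mul hL0.ne' h8.ne']
    field_simp
    ring

theorem slope_rpow {s : ℝ} :
    Tendsto (fun y : ℝ => y * ((1 + 1 / y) ^ s - 1)) atTop (𝓝 s) := by
  have h1 : HasDerivAt (fun x : ℝ => x ^ s) (s * 1 ^ (s - 1)) 1 :=
    Real.hasDerivAt_rpow_const (Or.inl one_ne_zero)
  rw [Real.one_rpow, mul_one, hasDerivAt_iff_tendsto_slope_zero] at h1
  have h2 : Tendsto (fun y : ℝ => 1 / y) atTop (𝓝[≠] 0) := by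
    rw [tendsto_nhdsWithin_iff]
    refine ⟨tendsto_const_nhds.div_atTop tendsto_id, ?_⟩
    filter_upwards [eventually_gt_atTop (0 : ℝ)] with y hy
    exact (one_div_pos.2 hy).ne'
  have h3 := h1.comp h2
  refine h3.congr fun y => ?_
  simp only [Function.comp, smul_eq_mul, Real.one_rpow, one_div, inv_inv]

/-- stretched exponentials: `w / d < exp (- c L ^ θ)`, `L = log (n / d)` -/
theorem abel_pow {θ c : ℝ} (hθ0 : 0 < θ) (hθ1 : θ < 1) (hc : 0 < c) :
    Abel (fun L => L + c * L ^ θ) (fun L => L ^ (1 - θ) / (c * (1 - θ))) 1 := by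
  obtain ⟨s, hs⟩ : ∃ s, s = 1 - θ := ⟨_, rfl⟩
  have hs0 : 0 < s := by linarith
  have hs1 : s < 1 := by linarith
  rw [← hs]
  have hcs : 0 < c * s := mul_pos hc hs0
  refine ⟨zero_le_one, ?_, ?_, ?_, ?_, ?_⟩
  · intro x hx y hy h
    have hx' : (1 : ℝ) ≤ x := hx
    have h1 : x ^ θ ≤ y ^ θ := Real.rpow_le_rpow (by linarith) h hθ0.le
    have h2 := mul_le_mul_of_nonneg_left h1 hc.le
    simp only
    linarith
  · intro L hL
    have h1 : 0 ≤ c * L ^ θ := mul_nonneg hc.le (Real.rpow_nonneg (by linarith) _)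
    linarith
  · intro x hx y hy h
    have hx' : (1 : ℝ) ≤ x := hx
    exact div_le_div_of_nonneg_right (Real.rpow_le_rpow (by linarith) h hs0.le) hcs.le
  · have h1 : Tendsto (fun L : ℝ => L ^ (-θ)) atTop (𝓝 0) := tendsto_rpow_neg_atTop hθ0
    have h2 := (h1.mul (slope_rpow (s := s))).div_const (c * s)
    rw [zero_mul, zero_div] at h2
    refine h2.congr' ?_
    filter_upwards [eventually_gt_atTop (0 : ℝ)] with L hL
    have h3 : (L + 1) ^ s = L ^ s * (1 + 1 / L) ^ s := by
      rw [← Real.mul_rpow hL.le (by positivity)]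
      congr 1
      field_simp
    have h4 : L ^ (-θ) * L = L ^ s := by
      rw [← Real.rpow_add_one hL.ne']
      congr 1
      linarith
    rw [h3, ← h4, ← sub_div]
    congr 1
    ring
  · have h1 : Tendsto (fun L : ℝ => L ^ s / c) atTop atTop :=
      (tendsto_rpow_atTop hs0).atTop_div_const hc
    have h2 := ((slope_rpow (s := s)).comp h1).div_const s
    rw [div_self hs0.ne'] at h2
    refine h2.congr' ?_
    filter_upwards [eventually_gt_atTop (0 : ℝ)] with L hL
    have hLs : 0 < L ^ s := Real.rpow_pos_of_pos hL s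
    have h4 : L ^ s * L ^ θ = L := by
      rw [← Real.rpow_add hL, show s + θ = 1 by linarith, Real.rpow_one]
    have h3 : (L + c * L ^ θ) ^ s = L ^ s * (1 + 1 / (L ^ s / c)) ^ s := by
      rw [← Real.mul_rpow hL.le (by positivity)]
      congr 1
      rw [one_div_div]
      have h5 : L * (1 + c / L ^ s) = L + c * (L / L ^ s) := by ring
      rw [h5]
      congr 2
      rw [eq_div_iff hLs.ne']
      linarith
    simp only [Function.comp]
    rw [h3, ← sub_div]
    field_simp

end Pool.Agent.H669.NP
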